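import Pool.Agent.Run7.h909.T3.Stm

/-!
# Quotients of triangle complexes (project T3, pieces QUOT and NUM1), after SQ/Quot.lean and SQ/Num.lean
-/

set_option autoImplicit false

namespace Run7.h417.T3

open SimpleGraph Run7.h909.TD
open Run7.h909.TT (Orb QT QF Kn)
open Run7.h909.T3

section

variable {K V W : Type} [Group K] [MulAction K V] {T : SimpleGraph V} {F : Set (ℤ → V)} {q : V → W}

theorem per3_eq {φ : ℤ → V} (h : Per φ 3) {i j : ℤ} (hij : i % 3 = j % 3) : φ i = φ j := by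
  refine (h _ _).2 ?_
  push_cast
  omega

theorem wrap3 {L : Type} [Group L] (c : V → V → L) (φ : ℤ → V) :
    wrap c φ 3 = c (φ 0) (φ 1) * c (φ 1) (φ 2) * c (φ 2) (φ 3) := by
  rw [wrap_succ, wrap_succ, wrap_succ, wrap_zero, one_mul]
  norm_num

theorem q_ne (hN : Nic K T F) (hq : Orb K q) {x y : V} (hxy : T.Adj x y) : q x ≠ q y := by
  intro he
  obtain ⟨k, hk⟩ := (hq.eq x y).1 he
  exact hN.ne k x y hxy hk

theorem QT_adj (hN : Nic K T F) (hq : Orb K q) {a b : W} :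
    (QT T q).Adj a b ↔ ∃ x y, T.Adj x y ∧ q x = a ∧ q y = b := by
  unfold QT
  rw [SimpleGraph.fromRel_adj]
  constructor
  · rintro ⟨-, ⟨x, y, h1, h2, h3⟩ | ⟨x, y, h1, h2, h3⟩⟩
    · exact ⟨x, y, h1, h2, h3⟩
    · exact ⟨y, x, h1.symm, h3, h2⟩
  · rintro ⟨x, y, h1, h2, h3⟩
    refine ⟨?_, Or.inl ⟨x, y, h1, h2, h3⟩⟩
    rw [← h2, ← h3]
    exact q_ne hN hq h1

/-- lifts of an edge at a vertex are in one orbit of the stabilizer -/
theorem nbr_orb (hN : Nic K T F) {x y : V} {k : K} (hxy : T.Adj x y) (hk : T.Adj x (k • y)) :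
    ∃ z : K, z • x = x ∧ z • y = k • y := by
  rcases hN.nb k x y hxy hk with h1 | h1
  · exact ⟨k, h1, rfl⟩
  · exact ⟨1, one_smul _ _, by rw [one_smul, h1]⟩

/-- lifts of an edge are in one orbit -/
theorem lift_edge (hN : Nic K T F) (hA : Ac K T F) (hq : Orb K q) {a b x y : V} (h1 : T.Adj a b)
    (h2 : T.Adj x y) (h3 : q a = q x) (h4 : q b = q y) : ∃ k : K, k • a = x ∧ k • b = y := by
  obtain ⟨k, hk⟩ := (hq.eq _ _).1 h3
  have h5 := hA.adj k _ _ h1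
  rw [hk] at h5
  have hqk : q (k • b) = q y := by rw [← h4]; exact ((hq.eq _ _).2 ⟨k, rfl⟩).symm
  obtain ⟨l, hl⟩ := (hq.eq _ _).1 hqk
  obtain ⟨z, hz1, hz2⟩ := nbr_orb (k := l) hN h5 (by rw [hl]; exact h2)
  exact ⟨z * k, by rw [mul_smul, hk, hz1], by rw [mul_smul, hz2, hl]⟩

theorem tg_adj1 (h : Tri T F) {x y z : V} (ht : Tg F x y z) : T.Adj x y := by
  obtain ⟨φ, hφ, rfl, rfl, rfl⟩ := ht
  have := h.adj φ hφ 0
  rwa [zero_add] at this

theorem tg_adj2 (h : Tri T F) {x y z : V} (ht : Tg F x y z) : T.Adj x z := by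
  obtain ⟨φ, hφ, rfl, rfl, rfl⟩ := ht
  have h1 := h.adj φ hφ 2
  rw [per3_eq (h.per φ hφ) (i := 2 + 1) (j := 0) (by norm_num)] at h1
  exact h1.symm

/-- lifting of triangles -/
theorem lift_tg (h : Tri T F) (hA : Ac K T F) (hq : Orb K q) (hN : Nic K T F) {x a : V} {b' : W}
    (hxa : T.Adj x a) (ht : Tg (QF F q) (q x) (q a) b') : ∃ b, q b = b' ∧ Tg F x a b := by
  obtain ⟨_, ⟨φ, hφ, rfl⟩, h0, h1, h2⟩ := ht
  have hadj : T.Adj (φ 0) (φ 1) := tg_adj1 h ⟨φ, hφ, rfl, rfl, rfl⟩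
  obtain ⟨k, hk0, hk1⟩ := lift_edge hN hA hq hadj hxa h0 h1
  refine ⟨k • φ 2, ?_, _, hA.face k φ hφ, hk0, hk1, rfl⟩
  rw [← h2]
  exact ((hq.eq _ _).2 ⟨k, rfl⟩).symm

theorem mod3' (n : ℤ) : n % 3 = 0 ∨ n % 3 = 1 ∨ n % 3 = 2 := by omega

theorem q_per (h : Tri T F) (hN : Nic K T F) (hq : Orb K q) {φ : ℤ → V} (hφ : φ ∈ F) :
    Per (fun i => q (φ i)) 3 := by
  intro i j
  constructor
  · intro hij
    obtain ⟨k, hk⟩ := (hq.eq _ _).1 hij
    have hp := h.per φ hφ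
    rcases mod3' (i - j) with hr | hr | hr
    · exact Int.dvd_of_emod_eq_zero hr
    · exfalso
      rw [per3_eq hp (i := i) (j := j + 1) (by omega)] at hk
      exact hN.ne k _ _ (h.adj φ hφ j).symm hk
    · exfalso
      rw [per3_eq hp (i := i) (j := j + 2) (by omega)] at hk
      have h1 := h.adj φ hφ (j + 2)
      rw [per3_eq hp (i := j + 2 + 1) (j := j) (by omega)] at h1
      exact hN.ne k _ _ h1 hk
  · intro hij
    show q (φ i) = q (φ j)
    rw [(h.per φ hφ i j).2 hij]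

theorem tri_quot (h : Tri T F) (hA : Ac K T F) (hq : Orb K q) (hN : Nic K T F) :
    Tri (QT T q) (QF F q) := by
  -- the start of a walk
  have start : ∀ v a b : W, Tg (QF F q) v a b → ∃ x a0 b0, q x = v ∧ q a0 = a ∧ q b0 = b ∧
      Tg F x a0 b0 := by
    rintro v a b ⟨_, ⟨φ, hφ, rfl⟩, h0, h1, h2⟩
    exact ⟨φ 0, φ 1, φ 2, h0, h1, h2, φ, hφ, rfl, rfl, rfl⟩
  -- the end of a walk
  have fin : ∀ x a0 y : V, T.Adj x a0 → T.Adj x y → q y = q a0 →
      ∃ z : K, z • x = x ∧ z • a0 = y := by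
    intro x a0 y h1 h2 h3
    obtain ⟨k, hk⟩ := (hq.eq _ _).1 h3.symm
    obtain ⟨z, hz1, hz2⟩ := nbr_orb (k := k) hN h1 (by rw [hk]; exact h2)
    exact ⟨z, hz1, hz2.trans hk⟩
  constructor
  · rintro _ ⟨φ, hφ, rfl⟩ i
    exact (QT_adj hN hq).2 ⟨_, _, h.adj φ hφ i, rfl, rfl⟩
  · rintro _ ⟨φ, hφ, rfl⟩
    exact q_per h hN hq hφ
  · rintro _ ⟨φ, hφ, rfl⟩ k
    exact ⟨_, h.shift φ hφ k, rfl⟩
  · rintro _ ⟨φ, hφ, rfl⟩
    exact ⟨_, h.refl φ hφ, rfl⟩
  · intro v a b c h1 h2 h3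
    obtain ⟨x, a0, b0, rfl, rfl, rfl, t1⟩ := start v a b h1
    obtain ⟨c0, rfl, t2⟩ := lift_tg h hA hq hN (tg_adj2 h t1) h2
    obtain ⟨a1, e1, t3⟩ := lift_tg h hA hq hN (tg_adj2 h t2) h3
    obtain ⟨z, hz1, hz2⟩ := fin x a0 a1 (tg_adj1 h t1) (tg_adj2 h t3) e1
    exact hN.l3 z x a0 b0 c0 t1 t2 (by rw [hz2]; exact t3) hz1
  · intro v a b c d h1 h2 h3 h4
    obtain ⟨x, a0, b0, rfl, rfl, rfl, t1⟩ := start v a b h1
    obtain ⟨c0, rfl, t2⟩ := lift_tg h hA hq hN (tg_adj2 h t1) h2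
    obtain ⟨d0, rfl, t3⟩ := lift_tg h hA hq hN (tg_adj2 h t2) h3
    obtain ⟨a1, e1, t4⟩ := lift_tg h hA hq hN (tg_adj2 h t3) h4
    obtain ⟨z, hz1, hz2⟩ := fin x a0 a1 (tg_adj1 h t1) (tg_adj2 h t4) e1
    rcases hN.l4 z x a0 b0 c0 d0 t1 t2 t3 (by rw [hz2]; exact t4) hz1 with h5 | h5
    · exact Or.inl ((hq.eq _ _).2 h5)
    · exact Or.inr ((hq.eq _ _).2 h5)
  · intro v a b c d e h1 h2 h3 h4 h5
    obtain ⟨x, a0, b0, rfl, rfl, rfl, t1⟩ := start v a b h1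
    obtain ⟨c0, rfl, t2⟩ := lift_tg h hA hq hN (tg_adj2 h t1) h2
    obtain ⟨d0, rfl, t3⟩ := lift_tg h hA hq hN (tg_adj2 h t2) h3
    obtain ⟨e0, rfl, t4⟩ := lift_tg h hA hq hN (tg_adj2 h t3) h4
    obtain ⟨a1, e1, t5⟩ := lift_tg h hA hq hN (tg_adj2 h t4) h5
    obtain ⟨z, hz1, hz2⟩ := fin x a0 a1 (tg_adj1 h t1) (tg_adj2 h t5) e1
    exact hN.l5 z x a0 b0 c0 d0 e0 t1 t2 t3 t4 (by rw [hz2]; exact t5) hz1

theorem sc_quot (h : Tri T F) (hA : Ac K T F) (hq : Orb K q) (hN : Nic K T F) (hs : SC T F)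
    (hgen : Subgroup.closure {k : K | ∃ x : V, k • x = x} = ⊤) :
    SC (QT T q) (QF F q) := by
  have hqk : ∀ (k : K) (x : V), q (k • x) = q x := fun k x => ((hq.eq _ _).2 ⟨k, rfl⟩).symm
  have hreach : ∀ x y, (QT T q).Reachable (q x) (q y) := by
    intro x y
    have hr := hs.1.preconnected x y
    rw [reachable_iff_reflTransGen] at hr
    induction hr with
    | refl => exact Reachable.refl _
    | tail _ hbc ih => exact ih.trans ((QT_adj hN hq).2 ⟨_, _, hbc, rfl, rfl⟩).reachable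
  obtain ⟨o⟩ := hs.1.nonempty
  refine ⟨?_, ?_⟩
  · have : Nonempty W := ⟨q o⟩
    refine ⟨fun a b => ?_⟩
    obtain ⟨x, rfl⟩ := hq.surj a
    obtain ⟨y, rfl⟩ := hq.surj b
    exact hreach x y
  · intro L _ c hc
    have hc' : Coc T F (fun x y => c (q x) (q y)) := by
      constructor
      · intro x y hxy
        exact hc.inv _ _ ((QT_adj hN hq).2 ⟨_, _, hxy, rfl, rfl⟩)
      · intro φ hφ n hn
        have hn3 : n = 3 := hn.unique (h.per φ hφ)
        subst hn3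
        have := hc.face _ ⟨φ, hφ, rfl⟩ 3 (q_per h hN hq hφ)
        rw [wrap3] at this ⊢
        exact this
    obtain ⟨f, hf⟩ := hs.2 _ _ hc'
    -- the defect
    have hρ : ∀ (k : K) (x y : V), f (k • x) * (f x)⁻¹ = f (k • y) * (f y)⁻¹ := by
      intro k x y
      have hr := hs.1.preconnected x y
      rw [reachable_iff_reflTransGen] at hr
      induction hr with
      | refl => rfl
      | @tail b d _ hbd ih =>
        rw [ih]
        have e1 := hf b d hbd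
        have e2 := hf _ _ (hA.adj k b d hbd)
        simp only [hqk] at e2
        rw [e1] at e2
        have e3 : f d = f b * ((f (k • b))⁻¹ * f (k • d)) := by
          rw [← e2]
          group
        rw [e3]
        group
    let ρ : K →* L := MonoidHom.mk' (fun k => f (k • o) * (f o)⁻¹) (by
      intro k l
      show f ((k * l) • o) * (f o)⁻¹ = f (k • o) * (f o)⁻¹ * (f (l • o) * (f o)⁻¹)
      rw [hρ k o (l • o), mul_smul]
      group)
    have hρ1 : ∀ k : K, ρ k = 1 := by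
      have : ρ.ker = ⊤ := by
        rw [eq_top_iff, ← hgen, Subgroup.closure_le]
        rintro k ⟨x, hx⟩
        show f (k • o) * (f o)⁻¹ = 1
        rw [hρ k o x, hx, mul_inv_cancel]
      intro k
      have hk : k ∈ ρ.ker := by rw [this]; exact Subgroup.mem_top k
      exact hk
    have hfk : ∀ (k : K) (x : V), f (k • x) = f x := by
      intro k x
      have h1 : f (k • o) * (f o)⁻¹ = 1 := hρ1 k
      rw [hρ k o x] at h1
      exact mul_inv_eq_one.1 h1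
    refine ⟨fun a => f (hq.surj a).choose, ?_⟩
    intro a b hab
    obtain ⟨x, y, h1, rfl, rfl⟩ := (QT_adj hN hq).1 hab
    have key : ∀ x : V, f (hq.surj (q x)).choose = f x := by
      intro x
      obtain ⟨k, hk⟩ := (hq.eq _ _).1 (hq.surj (q x)).choose_spec
      rw [← hfk k, hk]
    show c (q x) (q y) = (f (hq.surj (q x)).choose)⁻¹ * f (hq.surj (q y)).choose
    rw [key, key]
    exact hf x y h1

end

theorem t_QUOT : S_QUOT := by
  intro K V W _ _ T F q h hA hq hN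
  exact ⟨fun a b => QT_adj hN hq, tri_quot h hA hq hN, fun hs hgen => sc_quot h hA hq hN hs hgen⟩

theorem t_NUM1 : S_NUM1 := by
  intro H V _ _ T F f τ D
  classical
  have ext' : ∀ {g h : H} {x : V}, g • x = x → h • x = x → vl f g = vl f h → g = h := by
    intro g h x hg hh hv
    have h1 : (g * h⁻¹) • x = x := mul_fix hg (inv_fix hh)
    have h2 : f (g * h⁻¹) = 1 := by
      rw [← vl_eq_zero, vl_mul, vl_inv, hv, add_neg_cancel]
    exact mul_inv_eq_one.1 (D.inj _ x h1 h2)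
  obtain ⟨E, hE, hE'⟩ := D.fe
  -- an exponent for each pair
  have key : ∀ e : V × V, ∃ m : ℕ, 0 < m ∧ ((∃ g : H, g ≠ 1 ∧ g • e.1 = e.1 ∧ g • e.2 = e.2) →
      ∀ h : H, h • e.1 = e.1 → (m : ℤ) ∣ vl f h → h • e.2 = e.2) := by
    intro e
    by_cases hex : ∃ g : H, g ≠ 1 ∧ g • e.1 = e.1 ∧ g • e.2 = e.2
    · obtain ⟨g, hg, h1, h2⟩ := hex
      have hv : vl f g ≠ 0 := fun h0 => hg (D.inj g _ h1 ((vl_eq_zero f g).1 h0))
      refine ⟨(vl f g).natAbs, Int.natAbs_pos.2 hv, fun _ h hh hd => ?_⟩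
      rw [Int.natCast_natAbs, abs_dvd] at hd
      obtain ⟨m, hm⟩ := hd
      have : h = g ^ m := ext' hh (zpow_fix h1 m) (by rw [hm, vl_zpow, mul_comm])
      rw [this]
      exact zpow_fix h2 m
    · exact ⟨1, one_pos, fun h => absurd h hex⟩
  choose m hm0 hm using key
  refine ⟨∏ e ∈ hE.toFinset, m e, Finset.prod_pos fun e _ => hm0 e, ?_⟩
  rintro x y hxy ⟨g, hg, h1, h2⟩ h hh hd
  obtain ⟨g0, hg0⟩ := hE' x y hxy
  have hdv : ((m (g0 • x, g0 • y) : ℕ) : ℤ) ∣ vl f h := by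
    refine dvd_trans ?_ hd
    exact_mod_cast Finset.dvd_prod_of_mem m (hE.mem_toFinset.2 hg0)
  have h3 := hm (g0 • x, g0 • y) ⟨g0 * g * g0⁻¹, by
      intro he
      apply hg
      have : g0 * g = g0 := mul_inv_eq_one.1 he
      exact mul_eq_left.1 this, by
      show (g0 * g * g0⁻¹) • g0 • x = g0 • x
      rw [mul_smul, mul_smul, inv_smul_smul, h1], by
      show (g0 * g * g0⁻¹) • g0 • y = g0 • y
      rw [mul_smul, mul_smul, inv_smul_smul, h2]⟩ (g0 * h * g0⁻¹) (by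
      show (g0 * h * g0⁻¹) • g0 • x = g0 • x
      rw [mul_smul, mul_smul, inv_smul_smul, hh]) (by rw [vl_conj]; exact hdv)
  have h4 : (g0 * h * g0⁻¹) • g0 • y = g0 • y := h3
  rw [mul_smul, mul_smul, inv_smul_smul] at h4
  exact smul_left_cancel g0 h4

end Run7.h417.T3
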